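import Pool.Agent.N353.PT.Fin
import Pool.Agent.N953.PT.SEL
import Pool.Agent.N281.PT.DOM
import Pool.Agent.N199.PT.FRM
import Pool.Agent.N82.PT.CL
import Pool.Agent.N340.PT.BUN
import Pool.Agent.N221.PT.DIST
import Pool.Agent.N482.PT.CNT
import Pool.Agent.N391.PT.REM
import Pool.Agent.N749.PT.New
import Pool.Agent.N704.PT.STEP
import Pool.Agent.N615.PT.Paths
import Pool.Agent.N129.PT.ROB
import Pool.Agent.N615.PT.Deg

/-!
# Partitions of highly strong tournaments into `k`-strong parts with prescribed vertices

The tournament is `N`-strong, `N = C k ^ 7 t ^ 4` or only `N = C k ^ 4 t (1 + log (k t))`. Sketch of the proof.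
Take `k t` vertices of lowest in-degree and `k t` vertices of lowest out-degree; each of them is the sink (source)
of a small set which dominates (is dominated by) all the vertices except for a few exceptional ones. The paths
from the second sets to the first ones are chosen one after the other as shortest paths; the deletion of a shortest
path decreases the connectivity by at most `4`, and a shortest path contains few neighbours of any vertex (the
distance layers are large). Bounded sets of reserved vertices connect the exceptional vertices, the prescribed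
vertices and the end parts of the paths robustly; all the other vertices go to the first part.
-/

set_option autoImplicit false

open Finset
open scoped Classical

namespace Pool.Agent.Results.MP_a8780a_co.PrescribedPartition

/-- `T u v` says that there is an arc from `u` to `v`: no loops, and exactly one arc between two
different vertices -/
def IsTournament {V : Type} (T : V → V → Prop) : Prop :=
  (∀ v, ¬ T v v) ∧ ∀ u v, u ≠ v → (T u v ∧ ¬ T v u) ∨ (T v u ∧ ¬ T u v)

/-- the induced subdigraph on `W` is strongly connected: from every vertex of `W` there is a directed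
walk inside `W` to every other one -/
def Strong {V : Type} (T : V → V → Prop) (W : Finset V) : Prop :=
  ∀ u ∈ W, ∀ v ∈ W, Relation.ReflTransGen (fun a b => a ∈ W ∧ b ∈ W ∧ T a b) u v

/-- the induced subdigraph on `U` is `k`-strong: it has at least `k + 1` vertices and remains strongly
connected after the deletion of any set of at most `k - 1` vertices -/
def KStrong {V : Type} (T : V → V → Prop) (k : ℕ) (U : Finset V) : Prop :=
  k + 1 ≤ U.card ∧ ∀ X ⊆ U, X.card ≤ k - 1 → Strong T (U \ X)

theorem kstrong_iff {V : Type} (T : V → V → Prop) {k : ℕ} (hk : 0 < k) (U : Finset V) :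
    KStrong T k U ↔ k + 1 ≤ U.card ∧ Pool.Agent.N353.PT.Conn T k U := by
  unfold KStrong
  refine and_congr Iff.rfl ?_
  constructor
  · intro h X hX u hu v hv
    have h1 : U \ (U ∩ X) = U \ X := by
      ext w
      simp only [mem_sdiff, mem_inter]
      tauto
    have h2 := h (U ∩ X) inter_subset_left (by
      have := card_le_card (inter_subset_right : U ∩ X ⊆ X)
      omega)
    rw [h1] at h2
    exact h2 u hu v hv
  · intro h X _ hX u hu v hv
    exact h X (by omega) u hu v hv

/-- there is `C` such that for all positive `k`, `t`, every `N`-strong tournament, where `N = C k ^ 7 t ^ 4`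
(the question) or `N = C k ^ 4 t (⌈log₂ (k t)⌉ + 1)`, and all distinct vertices `x 0, ..., x (t - 1)`, the vertex
set is the disjoint union of `k`-strong classes `{v : c v = i}`, the vertex `x i` in the class number `i` -/
theorem result : ∃ C : ℕ, ∀ k t : ℕ, 0 < k → 0 < t → ∀ N : ℕ,
    (N = C * k ^ 7 * t ^ 4 ∨ N = C * k ^ 4 * t * (Nat.clog 2 (k * t) + 1)) →
    ∀ (V : Type) [Fintype V] (T : V → V → Prop), IsTournament T → KStrong T N univ →
    ∀ x : Fin t → V, Function.Injective x →
    ∃ c : V → Fin t, (∀ i, c (x i) = i) ∧ ∀ i, KStrong T k (univ.filter fun v => c v = i) := by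
  refine ⟨768, ?_⟩
  intro k t hk ht N hN V _ T hT hS x hx
  have hkt : 1 ≤ k * t := Nat.mul_pos hk ht
  have hclog : Nat.clog 2 (k * t) + 1 ≤ k * t := by
    have h1 : k * t ≤ 2 ^ (k * t - 1) := by
      have h2 := Nat.lt_two_pow_self (n := k * t - 1)
      omega
    have h3 := (Nat.clog_le_iff_le_pow (by norm_num : 1 < 2)).2 h1
    omega
  have hb : 768 * k ^ 4 * t * (Nat.clog 2 (k * t) + 1) ≤ N := by
    rcases hN with rfl | rfl
    · have hk2 : 1 ≤ k ^ 2 := Nat.one_le_pow _ _ hk
      have ht2 : 1 ≤ t ^ 2 := Nat.one_le_pow _ _ ht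
      calc 768 * k ^ 4 * t * (Nat.clog 2 (k * t) + 1) ≤ 768 * k ^ 4 * t * (k * t) :=
            Nat.mul_le_mul_left _ hclog
        _ = 768 * k ^ 5 * t ^ 2 * (1 * 1) := by ring
        _ ≤ 768 * k ^ 5 * t ^ 2 * (k ^ 2 * t ^ 2) :=
            Nat.mul_le_mul_left _ (Nat.mul_le_mul hk2 ht2)
        _ = 768 * k ^ 7 * t ^ 4 := by ring
    · exact le_rfl
  have hN0 : 0 < N := lt_of_lt_of_le (by positivity) hb
  have hTour : Pool.Agent.N353.PT.Tour T := by
    refine ⟨hT.1, fun u v h => ?_⟩
    rcases hT.2 u v h with h1 | h1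
    · exact ⟨fun _ => h1.2, fun _ => h1.1⟩
    · exact ⟨fun h2 => absurd h2 h1.2, fun h2 => absurd h1.1 h2⟩
  obtain ⟨hc1, hc2⟩ := (kstrong_iff T hN0 univ).1 hS
  have hMV : N < Fintype.card V := by
    rw [← card_univ]
    omega
  have hDIST := Pool.Agent.N221.PT.t_DIST
  have hCNT := Pool.Agent.N482.PT.t_CNT
  have hREM := Pool.Agent.N391.PT.t_REM
  have hCL := Pool.Agent.N82.PT.t_CL
  have hNEW := Pool.Agent.N749.PT.t_NEW hDIST hCNT hREM hCL
  have hPATHS := Pool.Agent.N615.PT.t_PATHS (Pool.Agent.N704.PT.t_STEP hNEW)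
  have hFRM := Pool.Agent.N199.PT.t_FRM Pool.Agent.N281.PT.DOM.t_DOM
  have hBUN := Pool.Agent.N340.PT.BUN.t_BUN hCL
  obtain ⟨c, hx', hc⟩ := Pool.Agent.N353.PT.Asm.main Pool.Agent.N953.PT.t_SEL hFRM hBUN hPATHS
    Pool.Agent.N129.PT.t_ROB Pool.Agent.N615.PT.t_DEG hk ht N hb hTour hMV hc2 x hx
  exact ⟨c, hx', fun i => (kstrong_iff T hk _).2 (hc i)⟩

end Pool.Agent.Results.MP_a8780a_co.PrescribedPartition
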